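import Pool.Agent.Lib.MP_a0d2f7_nt.Main

set_option autoImplicit false

namespace Pool.Agent.Results.MP_a0d2f7_nt.Distinct

open Polynomial Filter
open scoped NNReal ENNReal

/-- the naive height: the maximum of the absolute values of the coefficients -/
def height (P : ℤ[X]) : ℕ := P.support.sup fun i => (P.coeff i).natAbs

/-- `P` is the minimal polynomial over `ℤ` of the real algebraic number `α`: coprime coefficients,
positive leading coefficient, proportional to the monic minimal polynomial over `ℚ` -/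
def IsMinPolyInt (α : ℝ) (P : ℤ[X]) : Prop :=
  IsAlgebraic ℚ α ∧ P.IsPrimitive ∧ 0 < P.leadingCoeff ∧
    P.map (Int.castRingHom ℚ) = C (P.leadingCoeff : ℚ) * minpoly ℚ α

/-- the exponent `w_n` of Mahler -/
noncomputable def wn (n : ℕ) (ξ : ℝ) : ℝ≥0∞ :=
  ⨆ (w : ℝ≥0) (_ : Set.Infinite {P : ℤ[X] | P.natDegree ≤ n ∧ 0 < |aeval ξ P| ∧
    |aeval ξ P| ≤ (height P : ℝ) ^ (-(w : ℝ))}), (w : ℝ≥0∞)

/-- the exponent `w_n^*` of Koksma -/
noncomputable def wsn (n : ℕ) (ξ : ℝ) : ℝ≥0∞ :=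
  ⨆ (w : ℝ≥0) (_ : Set.Infinite {α : ℝ | ∃ P : ℤ[X], IsMinPolyInt α P ∧ P.natDegree ≤ n ∧
    0 < |ξ - α| ∧ |ξ - α| ≤ (height P : ℝ) ^ (-(w : ℝ) - 1)}), (w : ℝ≥0∞)

/-- `w(ξ)` -/
noncomputable def w (ξ : ℝ) : ℝ≥0∞ := limsup (fun n : ℕ => wn n ξ / n) atTop

/-- `w^*(ξ)` -/
noncomputable def ws (ξ : ℝ) : ℝ≥0∞ := limsup (fun n : ℕ => wsn n ξ / n) atTop

theorem IsMinPolyInt.spec {α : ℝ} {P : ℤ[X]} (h : IsMinPolyInt α P) :
    Irreducible P ∧ aeval α P = 0 := by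
  obtain ⟨h1, h2, h3, h4⟩ := h
  constructor
  · rw [h2.irreducible_iff_irreducible_map_fraction_map (K := ℚ), algebraMap_int_eq, h4,
      irreducible_isUnit_mul (isUnit_C.2 (by simpa using h3.ne'))]
    exact minpoly.irreducible h1.isIntegral
  · rw [← aeval_map_algebraMap ℚ, algebraMap_int_eq, h4, map_mul, minpoly.aeval, mul_zero]

theorem result : ∃ ξ : ℝ, ws ξ < w ξ := by
  obtain ⟨ξ, h1, h2⟩ := Pool.Agent.Lib.MP_a0d2f7_nt.main
  refine ⟨ξ, lt_of_le_of_lt (b := ((210001 / 48 : ℝ≥0) : ℝ≥0∞)) ?_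
    (lt_of_lt_of_le (b := ((210002 / 48 : ℝ≥0) : ℝ≥0∞)) ?_ ?_)⟩
  · refine limsup_le_of_le (h := ?_)
    filter_upwards [eventually_ge_atTop 3] with m hm
    refine ENNReal.div_le_of_le_mul (iSup₂_le fun v hv => ?_)
    have := h1 m hm v (hv.mono (by
      rintro α ⟨P, p1, p2, p3, p4⟩
      exact ⟨P, p1.spec.1, p2, p1.spec.2, p3, p4⟩))
    exact_mod_cast this
  · rw [ENNReal.coe_lt_coe, ← NNReal.coe_lt_coe]; norm_num
  · refine le_limsup_of_frequently_le' (frequently_atTop.2 fun N => ?_)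
    refine ⟨4 * (N + 1000000) + 3, by omega, ?_⟩
    rw [ENNReal.le_div_iff_mul_le (Or.inl (Nat.cast_ne_zero.2 (by omega)))
      (Or.inl (ENNReal.natCast_ne_top _))]
    refine le_iSup₂_of_le (210002 / 48 * ((4 * (N + 1000000) + 3 : ℕ) : ℝ≥0))
      (h2 (N + 1000000) (by omega)) ?_
    rw [ENNReal.coe_mul, ENNReal.coe_natCast]

end Pool.Agent.Results.MP_a0d2f7_nt.Distinct
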